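import Pool.Agent.Helper62.OP.Asm

/-!
# OPT: the optimality for combinations of indicators of intervals
-/

set_option autoImplicit false

namespace Pool.Agent.Helper57.OP

theorem core : Core := Pool.Agent.Helper62.OP.core_main

end Pool.Agent.Helper57.OP
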