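import Pool.Agent.Helper57.NW.Defs
import Pool.Agent.Helper24.UG.Ker
import Pool.Agent.Helper84.NW.Fl

/-!
# OPT: the test function `φ` has bounded variation
-/

set_option autoImplicit false
open MeasureTheory Set Filter Topology
open Pool.Agent.Helper54.LG (qk)
open Pool.Agent.Helper57.NW

namespace Pool.Agent.Helper57.OP

lemma evar_add {f g : ℝ → ℝ} {s : Set ℝ} : eVariationOn (fun x => f x + g x) s ≤ eVariationOn f s + eVariationOn g s := by
  refine iSup_le fun p => ?_
  refine le_trans (Finset.sum_le_sum (g := fun i => edist (f (p.2.1 (i + 1))) (f (p.2.1 i)) +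
    edist (g (p.2.1 (i + 1))) (g (p.2.1 i))) fun i _ => edist_add_add_le _ _ _ _) ?_
  rw [Finset.sum_add_distrib]
  exact add_le_add (eVariationOn.sum_le p.2.2.1 p.2.2.2) (eVariationOn.sum_le p.2.2.1 p.2.2.2)

lemma evar_mul (c : ℝ) {f : ℝ → ℝ} {s : Set ℝ} : eVariationOn (fun x => c * f x) s ≤ ENNReal.ofReal |c| * eVariationOn f s := by
  refine iSup_le fun p => ?_
  have h1 : ∀ i ∈ Finset.range p.1, edist (c * f (p.2.1 (i + 1))) (c * f (p.2.1 i)) =
      ENNReal.ofReal |c| * edist (f (p.2.1 (i + 1))) (f (p.2.1 i)) := by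
    intro i _
    rw [edist_dist, edist_dist, Real.dist_eq, Real.dist_eq, ← mul_sub, abs_mul, ENNReal.ofReal_mul (abs_nonneg c)]
  rw [Finset.sum_congr rfl h1, ← Finset.mul_sum]
  exact mul_le_mul_right (eVariationOn.sum_le p.2.2.1 p.2.2.2) _

lemma evar_sum {ι : Type} (J : Finset ι) (b : ι → ℝ) (g : ι → ℝ → ℝ) {s : Set ℝ} {V : ℝ} (hV : 0 ≤ V)
    (hg : ∀ j ∈ J, eVariationOn (g j) s ≤ ENNReal.ofReal V) :
    eVariationOn (fun x => ∑ j ∈ J, b j * g j x) s ≤ ENNReal.ofReal ((∑ j ∈ J, |b j|) * V) := by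
  classical
  induction J using Finset.induction_on with
  | empty =>
    simp only [Finset.sum_empty]
    rw [eVariationOn.constant_on]
    · exact zero_le
    · rintro x ⟨y, _, rfl⟩ z ⟨u, _, rfl⟩
      rfl
  | insert a J ha ih =>
    have h1 : (fun x => ∑ j ∈ insert a J, b j * g j x) = fun x => b a * g a x + ∑ j ∈ J, b j * g j x := by
      funext x
      rw [Finset.sum_insert ha]
    rw [h1, Finset.sum_insert ha, add_mul, ENNReal.ofReal_add (by positivity)
      (mul_nonneg (Finset.sum_nonneg fun _ _ => abs_nonneg _) hV)]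
    refine evar_add.trans (add_le_add ?_ (ih fun j hj => hg j (Finset.mem_insert_of_mem hj)))
    refine (evar_mul _).trans ?_
    rw [ENNReal.ofReal_mul (abs_nonneg _)]
    exact mul_le_mul_right (hg a (Finset.mem_insert_self _ _)) _

/-- the inequality of Cusa and Huygens -/
lemma cusa {b : ℝ} (hb : 0 ≤ b) : 3 * Real.sin b ≤ b * (2 + Real.cos b) := by
  rcases le_or_gt 3 b with h3 | h3
  · nlinarith [Real.sin_le_one b, Real.neg_one_le_cos b]
  have hmono : MonotoneOn (fun x => x * (2 + Real.cos x) - 3 * Real.sin x) (Icc 0 3) := by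
    refine monotoneOn_of_deriv_nonneg (convex_Icc _ _) (by fun_prop) (by fun_prop) ?_
    intro x hx
    rw [interior_Icc] at hx
    have hd : deriv (fun x => x * (2 + Real.cos x) - 3 * Real.sin x) x = 2 - 2 * Real.cos x - x * Real.sin x := by
      have h1 : HasDerivAt (fun x => x * (2 + Real.cos x) - 3 * Real.sin x)
          ((1 * (2 + Real.cos x) + x * (0 + -Real.sin x)) - 3 * Real.cos x) x := by
        have h2 : HasDerivAt (fun x => 2 + Real.cos x) (0 + -Real.sin x) x := by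
          simpa using (Real.hasDerivAt_cos x).const_add 2
        exact ((hasDerivAt_id x).mul h2).sub ((Real.hasDerivAt_sin x).const_mul 3)
      rw [h1.deriv]
      ring
    rw [hd]
    have hx2 : 0 < x / 2 := by linarith [hx.1]
    have hx3 : x / 2 < Real.pi / 2 := by linarith [hx.2, Real.pi_gt_three]
    have htan := Real.lt_tan hx2 hx3
    have hcos : 0 < Real.cos (x / 2) := Real.cos_pos_of_mem_Ioo ⟨by linarith, hx3⟩
    have hsin : 0 < Real.sin (x / 2) := Real.sin_pos_of_pos_of_lt_pi hx2 (by linarith [Real.pi_pos])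
    rw [Real.tan_eq_sin_div_cos, lt_div_iff₀ hcos] at htan
    have hc : Real.cos x = 1 - 2 * Real.sin (x / 2) ^ 2 := by
      have h5 := Real.cos_sq' (x / 2)
      have h6 := Real.cos_two_mul (x / 2)
      rw [show 2 * (x / 2) = x by ring] at h6
      rw [h6, h5]
      ring
    have hs : Real.sin x = 2 * Real.sin (x / 2) * Real.cos (x / 2) := by
      have h6 := Real.sin_two_mul (x / 2)
      rwa [show 2 * (x / 2) = x by ring] at h6
    rw [hc, hs]
    nlinarith
  have h := hmono (a := 0) (b := b) ⟨le_rfl, by norm_num⟩ ⟨hb, h3.le⟩ hb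
  simp only [zero_mul, Real.sin_zero, mul_zero, sub_self] at h
  linarith

lemma qk_anti : AntitoneOn (fun b => qk 0 b) (Ici 0) := by
  have hc : ContinuousOn (fun b => qk 0 b) (Ici 0) := (Pool.Agent.Helper54.LG.qk_cont 0).continuousOn
  have hder : ∀ x : ℝ, 0 < x → HasDerivAt (fun b => qk 0 b)
      ((4 * (1 - Real.cos x) * x ^ 3 - 4 * (x - Real.sin x) * (3 * x ^ 2)) / (x ^ 3) ^ 2) x := by
    intro x hx
    have h1 : HasDerivAt (fun b => 4 * (b - Real.sin b) / b ^ 3)
        ((4 * (1 - Real.cos x) * x ^ 3 - 4 * (x - Real.sin x) * (3 * x ^ 2)) / (x ^ 3) ^ 2) x := by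
      have h2 : HasDerivAt (fun b => 4 * (b - Real.sin b)) (4 * (1 - Real.cos x)) x :=
        ((hasDerivAt_id x).sub (Real.hasDerivAt_sin x)).const_mul 4
      have h3 : HasDerivAt (fun b : ℝ => b ^ 3) (3 * x ^ 2) x := by simpa using hasDerivAt_pow 3 x
      exact h2.div h3 (by positivity)
    refine h1.congr_of_eventuallyEq ?_
    filter_upwards [lt_mem_nhds hx] with b hb
    have h4 := Pool.Agent.Helper24.UG.qk_closed b
    rw [eq_div_iff (by positivity)]
    linarith
  refine antitoneOn_of_deriv_nonpos (convex_Ici _) hc ?_ ?_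
  · intro x hx
    rw [interior_Ici] at hx
    exact (hder x hx).differentiableAt.differentiableWithinAt
  · intro x hx
    rw [interior_Ici] at hx
    have hx0 : 0 < x := hx
    rw [(hder x hx).deriv]
    refine div_nonpos_of_nonpos_of_nonneg ?_ (by positivity)
    have h5 := cusa hx0.le
    have h6 : 4 * (1 - Real.cos x) * x ^ 3 - 4 * (x - Real.sin x) * (3 * x ^ 2) =
        4 * x ^ 2 * (3 * Real.sin x - x * (2 + Real.cos x)) := by ring
    rw [h6]
    exact mul_nonpos_of_nonneg_of_nonpos (by positivity) (by linarith)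

lemma qk_even (b : ℝ) : qk 0 (-b) = qk 0 b := Pool.Agent.Helper54.LG.qk_neg_right 0 b

lemma qk_le_zero (b : ℝ) : qk 0 b ≤ 2 / 3 := by
  rw [← Pool.Agent.Helper24.UG.qk_zero_zero]
  rcases le_total 0 b with h | h
  · exact qk_anti (Set.mem_Ici.2 le_rfl) (Set.mem_Ici.2 h) h
  · rw [← qk_even]
    exact qk_anti (Set.mem_Ici.2 le_rfl) (Set.mem_Ici.2 (by linarith)) (by linarith)

/-- the variation of a bump -/
lemma evar_bump {c L : ℝ} (hc : 0 ≤ c) (hL : 0 ≤ L) : eVariationOn (fun x => qk 0 (c * x)) (Icc (-L) L) ≤ ENNReal.ofReal 2 := by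
  have hmono : MonotoneOn (fun x => qk 0 (c * x)) (Icc (-L) 0) := by
    intro x hx y hy hxy
    show qk 0 (c * x) ≤ qk 0 (c * y)
    rw [← qk_even (c * x), ← qk_even (c * y)]
    refine qk_anti ?_ ?_ ?_
    · show (0:ℝ) ≤ -(c * y)
      nlinarith [hy.2, mul_nonneg hc (show (0:ℝ) ≤ -y by linarith [hy.2])]
    · show (0:ℝ) ≤ -(c * x)
      nlinarith [hx.2, mul_nonneg hc (show (0:ℝ) ≤ -x by linarith [hx.2])]
    · nlinarith [mul_le_mul_of_nonneg_left hxy hc]
  have hanti : AntitoneOn (fun x => qk 0 (c * x)) (Icc 0 L) := by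
    intro x hx y hy hxy
    exact qk_anti (show (0:ℝ) ≤ c * x from mul_nonneg hc hx.1) (show (0:ℝ) ≤ c * y from mul_nonneg hc hy.1)
      (mul_le_mul_of_nonneg_left hxy hc)
  have h0 : ∀ x, |qk 0 (c * x)| ≤ 1 := by
    intro x
    rw [abs_of_nonneg (Pool.Agent.Helper54.LG.qk_zero_nonneg _)]
    linarith [qk_le_zero (c * x)]
  have h1 : eVariationOn (fun x => qk 0 (c * x)) (Icc (-L) 0) ≤ ENNReal.ofReal 1 := by
    have := hmono.eVariationOn_eq (a := -L) (b := 0) ⟨le_rfl, by linarith⟩ ⟨by linarith, le_rfl⟩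
    rw [Set.inter_self] at this
    rw [this]
    refine ENNReal.ofReal_le_ofReal ?_
    have h2 := Pool.Agent.Helper54.LG.qk_zero_nonneg (c * -L)
    have h3 := qk_le_zero (c * 0)
    linarith
  have h2 : eVariationOn (fun x => qk 0 (c * x)) (Icc 0 L) ≤ ENNReal.ofReal 1 := by
    have hneg : MonotoneOn (fun x => -qk 0 (c * x)) (Icc 0 L) := fun x hx y hy hxy => neg_le_neg (hanti hx hy hxy)
    have := hneg.eVariationOn_eq (a := 0) (b := L) ⟨le_rfl, hL⟩ ⟨hL, le_rfl⟩
    rw [Set.inter_self] at this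
    have h5 : eVariationOn (fun x => qk 0 (c * x)) (Icc 0 L) ≤ eVariationOn (fun x => -qk 0 (c * x)) (Icc 0 L) := by
      have h6 := evar_mul (-1) (f := fun x => -qk 0 (c * x)) (s := Icc 0 L)
      simp only [abs_neg, abs_one, ENNReal.ofReal_one, one_mul, neg_mul, neg_neg] at h6
      exact h6
    refine h5.trans ?_
    rw [this]
    refine ENNReal.ofReal_le_ofReal ?_
    have h2 := Pool.Agent.Helper54.LG.qk_zero_nonneg (c * L)
    have h3 := qk_le_zero (c * 0)
    linarith
  have h3 := eVariationOn.union (fun x => qk 0 (c * x)) (s := Icc (-L) 0) (t := Icc 0 L) (x := 0)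
    ⟨⟨by linarith, le_rfl⟩, fun y hy => hy.2⟩ ⟨⟨le_rfl, hL⟩, fun y hy => hy.1⟩
  rw [Set.Icc_union_Icc_eq_Icc (by linarith) hL] at h3
  rw [h3]
  calc _ ≤ ENNReal.ofReal 1 + ENNReal.ofReal 1 := add_le_add h1 h2
    _ = ENNReal.ofReal 2 := by rw [← ENNReal.ofReal_add zero_le_one zero_le_one]; norm_num

/-- **`φ` is in the class**: it is bounded, with bounded variation. -/
theorem ph_bv {k d : ℝ} (hk : 0 < k) (hk8 : k ≤ 1 / 8) (hd : 0 < d) (hd1 : d ≤ 1) (n : ℕ) : ∃ B C : ℝ, 1 ≤ B ∧ 1 ≤ C ∧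
    ∀ R L : ℝ, C ≤ L → 1 ≤ R → R ≤ L ^ (1 - d) →
    (∀ x, |ph k R L n x| ≤ B) ∧ eVariationOn (ph k R L n) (Icc (-L) L) ≤ ENNReal.ofReal B := by
  obtain ⟨B, C, hB, hC, H⟩ := Pool.Agent.Helper84.NW.bw_facts hk hk8 hd hd1 n
  refine ⟨B * 2, C, by linarith, hC, fun R L hL hR hRL => ?_⟩
  obtain ⟨-, h2, -⟩ := H R L hL hR hRL
  have hL0 : 0 ≤ L := by linarith
  constructor
  · intro x
    unfold ph Pb
    refine (Finset.abs_sum_le_sum_abs _ _).trans ?_
    calc _ ≤ ∑ j ∈ Jw k L n, |bw k R L n j| * 2 := by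
          refine Finset.sum_le_sum fun j _ => ?_
          rw [abs_mul]
          refine mul_le_mul_of_nonneg_left ?_ (abs_nonneg _)
          rw [abs_of_nonneg (Pool.Agent.Helper54.LG.qk_zero_nonneg _)]
          linarith [qk_le_zero (2 * Real.pi * x / (1 + k) ^ j)]
      _ ≤ _ := by
          rw [← Finset.sum_mul]
          linarith
  · have h3 : ph k R L n = fun x => ∑ j ∈ Jw k L n, bw k R L n j * (fun y => qk 0 (2 * Real.pi / (1 + k) ^ j * y)) x := by
      funext x
      unfold ph Pb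
      refine Finset.sum_congr rfl fun j _ => ?_
      show _ = bw k R L n j * qk 0 (2 * Real.pi / (1 + k) ^ j * x)
      rw [show 2 * Real.pi / (1 + k) ^ j * x = 2 * Real.pi * x / (1 + k) ^ j by ring]
    rw [h3]
    refine (evar_sum (Jw k L n) (bw k R L n) (fun j y => qk 0 (2 * Real.pi / (1 + k) ^ j * y)) (V := 2) (by norm_num)
      fun j _ => evar_bump (by positivity) hL0).trans (ENNReal.ofReal_le_ofReal (by linarith))

end Pool.Agent.Helper57.OP
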