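import Pool.Agent.Helper57.OP.Step
import Pool.Agent.Helper57.NW.Defs
import Pool.Agent.Helper56.UG.Cv

/-!
# OPT: from intervals to weights of bounded variation
-/

set_option autoImplicit false
open MeasureTheory Set Filter Topology
open Pool.Agent.Helper57.PC (IsNontrivialZero mult)
open Pool.Agent.Helper93.UG (zc sp)
open Pool.Agent.Helper57.NS (cnt)

namespace Pool.Agent.Helper57.OP

/-- The sum of the weight `f` over the zeros whose height above `t` lies in `[-L, L]` but not in `W`. -/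
noncomputable def wsum (f : ℝ → ℝ) (T L t : ℝ) (W : Set ℝ) : ℝ :=
  ∑ᶠ ρ ∈ {ρ : ℂ | IsNontrivialZero ρ ∧ (ρ.im - t) / sp T ∈ Icc (-L) L \ W}, mult ρ * f ((ρ.im - t) / sp T)

/-- The optimality for combinations of indicators of intervals. -/
def Core : Prop := ∀ δ : ℝ, 0 < δ → δ ≤ 1 → ∃ c C T₀ : ℝ, 0 < c ∧ ∀ T : ℝ, T₀ ≤ T → ∀ L : ℝ, C ≤ L →
  L ≤ (Real.log T) ^ (1 - δ) → ∀ R : ℝ, L ^ δ ≤ R → R ≤ L ^ (1 - δ) → ∀ ε : ℝ, δ ≤ ε → ε ≤ 2 →
  ∀ (ι : Type) (s : Finset ι) (J : ι → Set ℝ) (w : ι → ℝ) (a : ℝ),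
    (∀ i ∈ s, (J i).OrdConnected ∧ J i ⊆ Icc (-L) L \ Ioo (-R) R) → ∑ i ∈ s, |w i| ≤ L ^ c →
    ENNReal.ofReal ((L / R) ^ (-((1 + δ) * ε ^ 2)) * T) ≤
      volume {t : ℝ | T ≤ t ∧ t ≤ 2 * T ∧ ε < |cnt T t (Icc (-R) R) + ∑ i ∈ s, w i * cnt T t (J i) - a|}

lemma cnt_sum {T t L : ℝ} {J : Set ℝ} (hJ : J ⊆ Icc (-L) L) {s : Finset ℂ}
    (hs : ∀ ρ : ℂ, IsNontrivialZero ρ → (ρ.im - t) / sp T ∈ Icc (-L) L → ρ ∈ s)
    (hs' : ∀ ρ ∈ s, IsNontrivialZero ρ) :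
    cnt T t J = ∑ ρ ∈ s, (mult ρ : ℝ) * J.indicator (fun _ => (1 : ℝ)) ((ρ.im - t) / sp T) := by
  classical
  unfold cnt zc
  have h1 : {ρ : ℂ | IsNontrivialZero ρ ∧ ρ.im ∈ {u : ℝ | (u - t) / sp T ∈ J}} =
      ↑(s.filter fun ρ : ℂ => (ρ.im - t) / sp T ∈ J) := by
    ext ρ
    simp only [Set.mem_ofPred_eq, Finset.coe_filter]
    constructor
    · rintro ⟨h2, h3⟩
      exact ⟨hs ρ h2 (hJ h3), h3⟩
    · rintro ⟨h2, h3⟩
      exact ⟨hs' ρ h2, h3⟩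
  rw [h1, finsum_mem_coe_finset, Nat.cast_sum, Finset.sum_filter]
  refine Finset.sum_congr rfl fun ρ _ => ?_
  by_cases h : (ρ.im - t) / sp T ∈ J
  · rw [if_pos h, indicator_of_mem h, mul_one]
  · rw [if_neg h, indicator_of_notMem h, mul_zero]

lemma wsum_sum {f : ℝ → ℝ} {T t L : ℝ} {W : Set ℝ} {s : Finset ℂ}
    (hs : ∀ ρ : ℂ, IsNontrivialZero ρ → (ρ.im - t) / sp T ∈ Icc (-L) L → ρ ∈ s)
    (hs' : ∀ ρ ∈ s, IsNontrivialZero ρ) :
    wsum f T L t W = ∑ ρ ∈ s, (mult ρ : ℝ) * (Icc (-L) L \ W).indicator f ((ρ.im - t) / sp T) := by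
  classical
  unfold wsum
  have h1 : {ρ : ℂ | IsNontrivialZero ρ ∧ (ρ.im - t) / sp T ∈ Icc (-L) L \ W} =
      ↑(s.filter fun ρ : ℂ => (ρ.im - t) / sp T ∈ Icc (-L) L \ W) := by
    ext ρ
    simp only [Set.mem_ofPred_eq, Finset.coe_filter]
    constructor
    · rintro ⟨h2, h3⟩
      exact ⟨hs ρ h2 h3.1, h3⟩
    · rintro ⟨h2, h3⟩
      exact ⟨hs' ρ h2, h3⟩
  rw [h1, finsum_mem_coe_finset, Finset.sum_filter]
  refine Finset.sum_congr rfl fun ρ _ => ?_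
  by_cases h : (ρ.im - t) / sp T ∈ Icc (-L) L \ W
  · rw [if_pos h, indicator_of_mem h]
  · rw [if_neg h, indicator_of_notMem h, mul_zero]

/-- approximation of the weighted sum, all `t` in `[T, 2 T]` at once -/
lemma wsum_approx {T L R B : ℝ} (hT : 3 ≤ T) (hR : 0 ≤ R) (hL : 0 ≤ L) (hB : 0 < B) {f : ℝ → ℝ}
    (hf : ∀ x ∈ Icc (-L) L, |f x| ≤ B) (hv : eVariationOn f (Icc (-L) L) ≤ ENNReal.ofReal B) {θ : ℝ} (hθ : 0 < θ) :
    ∃ (ι : Type) (s : Finset ι) (J : ι → Set ℝ) (w : ι → ℝ),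
      (∀ i ∈ s, (J i).OrdConnected ∧ J i ⊆ Icc (-L) L \ Ioo (-R) R) ∧ ∑ i ∈ s, |w i| ≤ 22 * B ∧
      ∀ t ∈ Icc T (2 * T), |wsum f T L t (Icc (-R) R) - ∑ i ∈ s, w i * cnt T t (J i)| ≤ θ := by
  classical
  have hs0 : 0 < sp T := by
    unfold sp
    have := Real.log_pos (show (1 : ℝ) < T by linarith)
    positivity
  set Z : Finset ℂ := (Pool.Agent.Helper56.UG.fin_of (I := Icc (T - L * sp T) (2 * T + L * sp T)) subset_rfl).toFinset with hZ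
  have hZs : ∀ t ∈ Icc T (2 * T), ∀ ρ : ℂ, IsNontrivialZero ρ → (ρ.im - t) / sp T ∈ Icc (-L) L → ρ ∈ Z := by
    intro t ht ρ hρ hh
    rw [hZ, Set.Finite.mem_toFinset]
    refine ⟨hρ, ?_⟩
    have h1 := hh.1
    have h2 := hh.2
    rw [le_div_iff₀ hs0] at h1
    rw [div_le_iff₀ hs0] at h2
    exact ⟨by linarith [ht.1], by linarith [ht.2]⟩
  have hZ' : ∀ ρ ∈ Z, IsNontrivialZero ρ := by
    intro ρ hρ
    rw [hZ, Set.Finite.mem_toFinset] at hρ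
    exact hρ.1
  set N : ℝ := ∑ ρ ∈ Z, (mult ρ : ℝ) with hN
  have hN0 : 0 ≤ N := Finset.sum_nonneg fun ρ _ => Nat.cast_nonneg _
  set η : ℝ := min B (θ / (2 * (N + 1))) with hη
  have hη0 : 0 < η := lt_min hB (by positivity)
  have hηB : η ≤ B := min_le_left _ _
  have hηN : 2 * η * N ≤ θ := by
    have h1 : η ≤ θ / (2 * (N + 1)) := min_le_right _ _
    rw [le_div_iff₀ (by positivity)] at h1
    nlinarith
  obtain ⟨h, ⟨ι, s, J, w, a1, a2, a3⟩, he⟩ := bv_step2 hR hL hB.le hf hv hη0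
  refine ⟨ι, s, J, w, fun i hi => ⟨(a1 i hi).1, (a1 i hi).2.trans ?_⟩, a2.trans (by linarith), fun t ht => ?_⟩
  · intro x hx
    exact ⟨hx.1, fun hx2 => hx.2 ⟨hx2.1.le, hx2.2.le⟩⟩
  · rw [wsum_sum (hZs t ht) hZ']
    have h1 : ∑ i ∈ s, w i * cnt T t (J i) = ∑ ρ ∈ Z, (mult ρ : ℝ) *
        ∑ i ∈ s, w i * (J i).indicator (fun _ => (1 : ℝ)) ((ρ.im - t) / sp T) := by
      rw [Finset.sum_congr rfl fun i hi => by
        rw [cnt_sum ((a1 i hi).2.trans fun x hx => hx.1) (hZs t ht) hZ']]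
      simp only [Finset.mul_sum]
      rw [Finset.sum_comm]
      exact Finset.sum_congr rfl fun ρ _ => Finset.sum_congr rfl fun i _ => by ring
    rw [h1, ← Finset.sum_sub_distrib]
    refine (Finset.abs_sum_le_sum_abs _ _).trans ?_
    refine le_trans (Finset.sum_le_sum (g := fun ρ => (mult ρ : ℝ) * (2 * η)) fun ρ _ => ?_) ?_
    · rw [← mul_sub, abs_mul, abs_of_nonneg (Nat.cast_nonneg _ : (0 : ℝ) ≤ (mult ρ : ℝ))]
      refine mul_le_mul_of_nonneg_left ?_ (Nat.cast_nonneg _)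
      by_cases hm : (ρ.im - t) / sp T ∈ Icc (-L) L \ Icc (-R) R
      · rw [indicator_of_mem hm, ← a3 _ hm]
        exact he _ hm
      · rw [indicator_of_notMem hm, Finset.sum_eq_zero, sub_zero, abs_zero]
        · positivity
        · intro i hi
          rw [indicator_of_notMem, mul_zero]
          exact fun h5 => hm ((a1 i hi).2 h5)
    · rw [← Finset.sum_mul, ← hN]
      linarith

/-- **The reduction.** -/
theorem bv_of_core (H : Core) : ∀ δ : ℝ, 0 < δ → δ ≤ 1 → ∃ c C T₀ : ℝ, 0 < c ∧ 1 ≤ C ∧ ∀ T : ℝ, T₀ ≤ T → ∀ L : ℝ, C ≤ L →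
    L ≤ (Real.log T) ^ (1 - δ) → ∀ R : ℝ, L ^ δ ≤ R → R ≤ L ^ (1 - δ) → ∀ ε : ℝ, δ ≤ ε → ε ≤ 1 →
    ∀ (f : ℝ → ℝ) (a : ℝ), (∀ x ∈ Icc (-L) L, |f x| ≤ L ^ c) → eVariationOn f (Icc (-L) L) ≤ ENNReal.ofReal (L ^ c) →
    ENNReal.ofReal ((L / R) ^ (-((1 + δ) * ε ^ 2)) * T) ≤
      volume {t : ℝ | T ≤ t ∧ t ≤ 2 * T ∧ ε < |cnt T t (Icc (-R) R) - (a - wsum f T L t (Icc (-R) R))|} := by
  intro δ hδ hδ1
  obtain ⟨c, C, T₀, hc, H⟩ := H (δ / 2) (by linarith) (by linarith)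
  refine ⟨c / 2, max (max C 1) (22 ^ (2 / c)), max T₀ 3, by linarith, ?_, fun T hT L hL hLT R hR hRL ε hε hε1 f a hf hv => ?_⟩
  · exact (le_max_right _ _).trans (le_max_left _ _)
  have hT0 : T₀ ≤ T := (le_max_left _ _).trans hT
  have hT3 : 3 ≤ T := (le_max_right _ _).trans hT
  have hL0 : C ≤ L := (le_max_left _ _).trans ((le_max_left _ _).trans hL)
  have hL1 : 1 ≤ L := (le_max_right _ _).trans ((le_max_left _ _).trans hL)
  have hL2 : (22 : ℝ) ^ (2 / c) ≤ L := (le_max_right _ _).trans hL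
  have hlog : 1 ≤ Real.log T := by
    have : Real.exp 1 ≤ T := by
      have := Real.exp_one_lt_d9
      linarith
    rw [Real.le_log_iff_exp_le (by linarith)]
    exact this
  have hR1 : 1 ≤ R := le_trans (Real.one_le_rpow hL1 hδ.le) hR
  have hB : 22 * L ^ (c / 2) ≤ L ^ c := by
    have h1 : (22 : ℝ) ≤ L ^ (c / 2) := by
      calc (22 : ℝ) = ((22 : ℝ) ^ (2 / c)) ^ (c / 2) := by
            rw [← Real.rpow_mul (by norm_num), show 2 / c * (c / 2) = 1 by field_simp, Real.rpow_one]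
        _ ≤ L ^ (c / 2) := Real.rpow_le_rpow (by positivity) hL2 (by positivity)
    calc 22 * L ^ (c / 2) ≤ L ^ (c / 2) * L ^ (c / 2) := mul_le_mul_of_nonneg_right h1 (by positivity)
      _ = L ^ c := by rw [← Real.rpow_add (by linarith), show c / 2 + c / 2 = c by ring]
  set θ : ℝ := δ * ε / 16 with hθ
  have hε0 : 0 < ε := lt_of_lt_of_le hδ hε
  have hθ0 : 0 < θ := by positivity
  have hθ1 : θ ≤ ε := by
    rw [hθ]
    nlinarith
  obtain ⟨ι, s, J, w, h1, h2, h3⟩ := wsum_approx hT3 (by linarith : (0:ℝ) ≤ R) (by linarith : (0:ℝ) ≤ L)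
    (Real.rpow_pos_of_pos (by linarith) (c / 2)) hf hv hθ0
  have hUL : 1 ≤ L / R := by
    rw [one_le_div (by linarith)]
    calc R ≤ L ^ (1 - δ) := hRL
      _ ≤ L ^ (1 : ℝ) := Real.rpow_le_rpow_of_exponent_le hL1 (by linarith)
      _ = L := Real.rpow_one L
  have hcore := H T hT0 L hL0 (hLT.trans (Real.rpow_le_rpow_of_exponent_le hlog (by linarith))) R
    ((Real.rpow_le_rpow_of_exponent_le hL1 (by linarith)).trans hR)
    (hRL.trans (Real.rpow_le_rpow_of_exponent_le hL1 (by linarith))) (ε + θ) (by linarith) (by linarith) ι s J w a h1 (h2.trans hB)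
  refine le_trans (ENNReal.ofReal_le_ofReal ?_) (hcore.trans (measure_mono ?_))
  · refine mul_le_mul_of_nonneg_right (Real.rpow_le_rpow_of_exponent_le hUL ?_) (by linarith)
    rw [neg_le_neg_iff, hθ]
    have h5 : (1 + δ / 2) * (ε + δ * ε / 16) ^ 2 = (1 + δ / 2) * (1 + δ / 16) ^ 2 * ε ^ 2 := by ring
    rw [h5]
    refine mul_le_mul_of_nonneg_right ?_ (sq_nonneg ε)
    nlinarith [mul_pos hδ hδ, mul_pos (mul_pos hδ hδ) hδ, mul_le_mul_of_nonneg_left hδ1 hδ.le,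
      mul_le_mul_of_nonneg_left hδ1 (mul_pos hδ hδ).le]
  · rintro t ⟨ht1, ht2, ht3⟩
    refine ⟨ht1, ht2, ?_⟩
    have h6 := h3 t ⟨ht1, ht2⟩
    have h7 : |cnt T t (Icc (-R) R) + ∑ i ∈ s, w i * cnt T t (J i) - a| ≤
        |cnt T t (Icc (-R) R) - (a - wsum f T L t (Icc (-R) R))| +
        |wsum f T L t (Icc (-R) R) - ∑ i ∈ s, w i * cnt T t (J i)| := by
      refine (abs_sub _ _).trans' (le_of_eq ?_)
      congr 1
      ring
    linarith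

end Pool.Agent.Helper57.OP
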