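import Pool.Agent.Helper57.OP.BV
import Pool.Agent.Helper62.OP.Defs

/-!
# OPT: from families indexed by `Fin n` to finite sets of indices
-/

set_option autoImplicit false
open MeasureTheory Set Filter Topology
open Pool.Agent.Helper57.NS (cnt)
open Pool.Agent.Helper62.OP (Rng)

namespace Pool.Agent.Helper57.OP

theorem core_of (H : ∀ d : ℝ, 0 < d → d ≤ 1 → ∃ c C T₀ : ℝ, 0 < c ∧ 1 ≤ C ∧ ∀ T R L e : ℝ, T₀ ≤ T → C ≤ L → Rng d T R L →
    d ≤ e → e ≤ 2 → ∀ (n : ℕ) (J : Fin n → Set ℝ) (v : Fin n → ℝ) (A : ℝ), (∀ i, (J i).OrdConnected) →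
      (∀ i, ∀ x ∈ J i, R ≤ |x| ∧ |x| ≤ L) → ∑ i, |v i| ≤ L ^ c →
      ENNReal.ofReal ((L / R) ^ (-((1 + d) * e ^ 2)) * T) ≤
        volume {t : ℝ | T ≤ t ∧ t ≤ 2 * T ∧ e < |cnt T t (Icc (-R) R) + ∑ i, v i * cnt T t (J i) - A|}) : Core := by
  intro δ hδ hδ1
  obtain ⟨c, C, T₀, hc, hC, h⟩ := H δ hδ hδ1
  refine ⟨c, C, T₀, hc, fun T hT L hL hLT R hR hRL e he he2 ι s J w a hJ hw => ?_⟩
  have hsum : ∀ g : ι → ℝ, ∑ i ∈ s, g i = ∑ i : Fin s.card, g (s.equivFin.symm i) := by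
    intro g
    rw [← Finset.sum_coe_sort s, ← Equiv.sum_comp s.equivFin.symm]
  have h1 := h T R L e hT hL ⟨hLT, hR, hRL⟩ he he2 s.card (fun i => J (s.equivFin.symm i)) (fun i => w (s.equivFin.symm i)) a
    (fun i => (hJ _ (s.equivFin.symm i).2).1) ?_ ?_
  · simp only [hsum]
    exact h1
  · intro i x hx
    have h2 := (hJ _ (s.equivFin.symm i).2).2 hx
    refine ⟨?_, abs_le.2 h2.1⟩
    by_contra h3
    exact h2.2 (abs_lt.1 (not_le.1 h3))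
  · rw [← hsum fun i => |w i|]
    exact hw

end Pool.Agent.Helper57.OP
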