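import Mathlib

/-!
# OPT: functions of bounded variation are uniform limits of combinations of indicators of intervals
-/

set_option autoImplicit false
open Set

namespace Pool.Agent.Helper57.OP

/-- `g` is on `O` a combination of indicators of intervals in `O` with sum of the absolute values of the weights at most
`S`. -/
def StepIn (O : Set ℝ) (S : ℝ) (g : ℝ → ℝ) : Prop :=
  ∃ (ι : Type) (s : Finset ι) (J : ι → Set ℝ) (w : ι → ℝ), (∀ i ∈ s, (J i).OrdConnected ∧ J i ⊆ O) ∧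
    ∑ i ∈ s, |w i| ≤ S ∧ ∀ x ∈ O, g x = ∑ i ∈ s, w i * (J i).indicator (fun _ => (1 : ℝ)) x

lemma StepIn.add {O : Set ℝ} {S S' : ℝ} {g g' : ℝ → ℝ} (h : StepIn O S g) (h' : StepIn O S' g') :
    StepIn O (S + S') (fun x => g x + g' x) := by
  obtain ⟨ι, s, J, w, h1, h2, h3⟩ := h
  obtain ⟨ι', s', J', w', h1', h2', h3'⟩ := h'
  refine ⟨ι ⊕ ι', s.disjSum s', Sum.elim J J', Sum.elim w w', ?_, ?_, ?_⟩
  · intro i hi
    rw [Finset.mem_disjSum] at hi
    rcases hi with ⟨a, ha, rfl⟩ | ⟨a, ha, rfl⟩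
    · exact h1 a ha
    · exact h1' a ha
  · rw [Finset.sum_disjSum]
    exact add_le_add h2 h2'
  · intro x hx
    show g x + g' x = _
    rw [Finset.sum_disjSum, h3 x hx, h3' x hx]
    rfl

lemma StepIn.neg {O : Set ℝ} {S : ℝ} {g : ℝ → ℝ} (h : StepIn O S g) : StepIn O S (fun x => -g x) := by
  obtain ⟨ι, s, J, w, h1, h2, h3⟩ := h
  refine ⟨ι, s, J, fun i => -w i, h1, by simpa using h2, fun x hx => ?_⟩
  show -g x = _
  rw [h3 x hx, ← Finset.sum_neg_distrib]
  exact Finset.sum_congr rfl fun i _ => by ring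

lemma StepIn.mono {O : Set ℝ} {S S' : ℝ} {g : ℝ → ℝ} (h : StepIn O S g) (hS : S ≤ S') : StepIn O S' g := by
  obtain ⟨ι, s, J, w, h1, h2, h3⟩ := h
  exact ⟨ι, s, J, w, h1, h2.trans hS, h3⟩

lemma StepIn.union {O O' : Set ℝ} {S S' : ℝ} {g : ℝ → ℝ} (h : StepIn O S g) (h' : StepIn O' S' g) (hd : Disjoint O O') :
    StepIn (O ∪ O') (S + S') g := by
  obtain ⟨ι, s, J, w, h1, h2, h3⟩ := h
  obtain ⟨ι', s', J', w', h1', h2', h3'⟩ := h'
  refine ⟨ι ⊕ ι', s.disjSum s', Sum.elim J J', Sum.elim w w', ?_, ?_, ?_⟩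
  · intro i hi
    rw [Finset.mem_disjSum] at hi
    rcases hi with ⟨a, ha, rfl⟩ | ⟨a, ha, rfl⟩
    · exact ⟨(h1 a ha).1, (h1 a ha).2.trans subset_union_left⟩
    · exact ⟨(h1' a ha).1, (h1' a ha).2.trans subset_union_right⟩
  · rw [Finset.sum_disjSum]
    exact add_le_add h2 h2'
  · intro x hx
    rw [Finset.sum_disjSum]
    rcases hx with hx | hx
    · rw [h3 x hx]
      have h0 : ∑ i ∈ s', w' i * (J' i).indicator (fun _ => (1 : ℝ)) x = 0 := by
        refine Finset.sum_eq_zero fun i hi => ?_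
        rw [indicator_of_notMem, mul_zero]
        exact fun hxi => Set.disjoint_left.1 hd hx ((h1' i hi).2 hxi)
      simp only [Sum.elim_inl, Sum.elim_inr]
      rw [h0, add_zero]
    · rw [h3' x hx]
      have h0 : ∑ i ∈ s, w i * (J i).indicator (fun _ => (1 : ℝ)) x = 0 := by
        refine Finset.sum_eq_zero fun i hi => ?_
        rw [indicator_of_notMem, mul_zero]
        exact fun hxi => Set.disjoint_left.1 hd ((h1 i hi).2 hxi) hx
      simp only [Sum.elim_inl, Sum.elim_inr]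
      rw [h0, zero_add]

lemma StepIn.const {O : Set ℝ} (hO : O.OrdConnected) (c : ℝ) : StepIn O |c| (fun _ => c) := by
  refine ⟨Unit, {()}, fun _ => O, fun _ => c, fun _ _ => ⟨hO, subset_rfl⟩, by simp, fun x hx => ?_⟩
  simp [indicator_of_mem hx]

/-- a monotone function -/
lemma mono_step {O : Set ℝ} (hO : O.OrdConnected) {g : ℝ → ℝ} (hg : MonotoneOn g O) {V η : ℝ} (hV : 0 ≤ V) (hη : 0 < η)
    (hb : ∀ x ∈ O, |g x| ≤ V) : ∃ h : ℝ → ℝ, StepIn O (3 * V + η) h ∧ ∀ x ∈ O, |g x - h x| ≤ η := by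
  classical
  set n : ℕ := ⌊2 * V / η⌋₊ + 1 with hn
  have hn1 : (n : ℝ) * η ≤ 2 * V + η := by
    have h1 : ((⌊2 * V / η⌋₊ : ℕ) : ℝ) ≤ 2 * V / η := Nat.floor_le (by positivity)
    rw [le_div_iff₀ hη] at h1
    rw [hn]
    push_cast
    linarith
  have hn2 : 2 * V < (n : ℝ) * η := by
    have h1 : 2 * V / η < (⌊2 * V / η⌋₊ : ℝ) + 1 := Nat.lt_floor_add_one _
    rw [div_lt_iff₀ hη] at h1
    rw [hn]
    push_cast
    linarith
  have hst : StepIn O ((n : ℝ) * η) (fun x => ∑ j ∈ Finset.range n, η *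
      ({y : ℝ | y ∈ O ∧ -V + ((j : ℝ) + 1) * η ≤ g y}).indicator (fun _ => (1 : ℝ)) x) := by
    refine ⟨ℕ, Finset.range n, fun j => {y : ℝ | y ∈ O ∧ -V + ((j : ℝ) + 1) * η ≤ g y}, fun _ => η, ?_, ?_, fun x _ => rfl⟩
    · intro j _
      refine ⟨⟨?_⟩, fun y hy => hy.1⟩
      intro x hx z hz y hy
      have hyO : y ∈ O := hO.out hx.1 hz.1 hy
      exact ⟨hyO, hx.2.trans (hg hx.1 hyO hy.1)⟩
    · simp [abs_of_pos hη]
  have h1 := (StepIn.const hO (-V)).add hst
  refine ⟨_, h1.mono ?_, fun x hx => ?_⟩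
  · rw [abs_neg, abs_of_nonneg hV]
    linarith
  · have hxV := hb x hx
    rw [abs_le] at hxV
    set k : ℕ := ⌊(g x + V) / η⌋₊ with hk
    have hk0 : 0 ≤ (g x + V) / η := div_nonneg (by linarith [hxV.1]) hη.le
    have hk1 : (k : ℝ) * η ≤ g x + V := by
      have := Nat.floor_le hk0
      rw [le_div_iff₀ hη] at this
      exact this
    have hk2 : g x + V < ((k : ℝ) + 1) * η := by
      have := Nat.lt_floor_add_one ((g x + V) / η)
      rw [div_lt_iff₀ hη] at this
      exact this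
    have hkn : k ≤ n := by
      have h5 : (k : ℝ) * η < (n : ℝ) * η := by linarith [hxV.2]
      have h6 : (k : ℝ) < n := lt_of_mul_lt_mul_right h5 hη.le
      exact_mod_cast h6.le
    have hsum : ∑ j ∈ Finset.range n, η *
        ({y : ℝ | y ∈ O ∧ -V + ((j : ℝ) + 1) * η ≤ g y}).indicator (fun _ => (1 : ℝ)) x = (k : ℝ) * η := by
      have h7 : ∀ j ∈ Finset.range n, η *
          ({y : ℝ | y ∈ O ∧ -V + ((j : ℝ) + 1) * η ≤ g y}).indicator (fun _ => (1 : ℝ)) x = if j < k then η else 0 := by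
        intro j _
        by_cases hj : j < k
        · rw [if_pos hj, indicator_of_mem, mul_one]
          refine ⟨hx, ?_⟩
          have h8 : (j : ℝ) + 1 ≤ k := by exact_mod_cast hj
          have h9 : ((j : ℝ) + 1) * η ≤ (k : ℝ) * η := mul_le_mul_of_nonneg_right h8 hη.le
          linarith
        · rw [if_neg hj, indicator_of_notMem, mul_zero]
          intro hmem
          have h8 : (k : ℝ) + 1 ≤ (j : ℝ) + 1 := by
            have : k ≤ j := not_lt.1 hj
            have : (k : ℝ) ≤ j := by exact_mod_cast this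
            linarith
          have h9 : ((k : ℝ) + 1) * η ≤ ((j : ℝ) + 1) * η := mul_le_mul_of_nonneg_right h8 hη.le
          linarith [hmem.2]
      rw [Finset.sum_congr rfl h7, ← Finset.sum_filter]
      have h10 : (Finset.range n).filter (fun j => j < k) = Finset.range k := by
        ext j
        simp only [Finset.mem_filter, Finset.mem_range]
        constructor
        · exact fun h => h.2
        · exact fun h => ⟨lt_of_lt_of_le h hkn, h⟩
      rw [h10]
      simp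
    rw [hsum, abs_le]
    constructor <;> nlinarith

/-- a function of bounded variation, on an interval -/
lemma bv_step {L B : ℝ} {f : ℝ → ℝ} {O : Set ℝ} (hO : O.OrdConnected) (hOL : O ⊆ Icc (-L) L) (hL : 0 ≤ L) (hB : 0 ≤ B)
    (hf : ∀ x ∈ Icc (-L) L, |f x| ≤ B) (hv : eVariationOn f (Icc (-L) L) ≤ ENNReal.ofReal B) {η : ℝ} (hη : 0 < η) :
    ∃ h : ℝ → ℝ, StepIn O (9 * B + 2 * η) h ∧ ∀ x ∈ O, |f x - h x| ≤ 2 * η := by
  have hbv : BoundedVariationOn f (Icc (-L) L) := ne_top_of_le_ne_top ENNReal.ofReal_ne_top hv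
  have hlbv := hbv.locallyBoundedVariationOn
  have hm : (-L) ∈ Icc (-L) L := ⟨le_rfl, by linarith⟩
  have hp := (variationOnFromTo.monotoneOn hlbv hm).mono hOL
  have hq := (variationOnFromTo.sub_self_monotoneOn hlbv hm).mono hOL
  have hpb : ∀ x : ℝ, |variationOnFromTo f (Icc (-L) L) (-L) x| ≤ B := by
    intro x
    refine (variationOnFromTo.abs_le_eVariationOn hbv).trans ?_
    exact ENNReal.toReal_le_of_le_ofReal hB hv
  obtain ⟨h1, hs1, he1⟩ := mono_step hO hp hB hη fun x _ => hpb x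
  obtain ⟨h2, hs2, he2⟩ := mono_step hO hq (V := 2 * B) (by linarith) hη fun x hx => by
    rw [Pi.sub_apply]
    refine (abs_sub _ _).trans ?_
    linarith [hpb x, hf x (hOL hx)]
  refine ⟨_, (hs1.add hs2.neg).mono (by linarith), fun x hx => ?_⟩
  have h3 := he1 x hx
  have h4 := he2 x hx
  rw [Pi.sub_apply] at h4
  rw [abs_le] at h3 h4 ⊢
  constructor <;> linarith [h3.1, h3.2, h4.1, h4.2]

/-- a function of bounded variation, on `[-L, L]` without `[-R, R]` -/
lemma bv_step2 {L R B : ℝ} {f : ℝ → ℝ} (hR : 0 ≤ R) (hL : 0 ≤ L) (hB : 0 ≤ B)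
    (hf : ∀ x ∈ Icc (-L) L, |f x| ≤ B) (hv : eVariationOn f (Icc (-L) L) ≤ ENNReal.ofReal B) {η : ℝ} (hη : 0 < η) :
    ∃ h : ℝ → ℝ, StepIn (Icc (-L) L \ Icc (-R) R) (18 * B + 4 * η) h ∧ ∀ x ∈ Icc (-L) L \ Icc (-R) R, |f x - h x| ≤ 2 * η := by
  classical
  have hO1 : (Icc (-L) L ∩ Iio (-R)).OrdConnected := ordConnected_Icc.inter ordConnected_Iio
  have hO2 : (Icc (-L) L ∩ Ioi R).OrdConnected := ordConnected_Icc.inter ordConnected_Ioi
  obtain ⟨h1, hs1, he1⟩ := bv_step hO1 inter_subset_left hL hB hf hv hη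
  obtain ⟨h2, hs2, he2⟩ := bv_step hO2 inter_subset_left hL hB hf hv hη
  have hd : Disjoint (Icc (-L) L ∩ Iio (-R)) (Icc (-L) L ∩ Ioi R) := by
    rw [Set.disjoint_left]
    intro x hx hx'
    have h5 : x < -R := hx.2
    have h6 : R < x := hx'.2
    linarith
  set h : ℝ → ℝ := fun x => if x < 0 then h1 x else h2 x with hh
  have hun : Icc (-L) L \ Icc (-R) R = (Icc (-L) L ∩ Iio (-R)) ∪ (Icc (-L) L ∩ Ioi R) := by
    ext x
    simp only [Set.mem_sdiff, Set.mem_Icc, Set.mem_union, Set.mem_inter_iff, Set.mem_Iio, Set.mem_Ioi, not_and_or, not_le]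
    tauto
  have hst1 : StepIn (Icc (-L) L ∩ Iio (-R)) (9 * B + 2 * η) h := by
    obtain ⟨ι, s, J, w, a1, a2, a3⟩ := hs1
    refine ⟨ι, s, J, w, a1, a2, fun x hx => ?_⟩
    have h5 : x < -R := hx.2
    rw [hh]
    simp only []
    rw [if_pos (by linarith), a3 x hx]
  have hst2 : StepIn (Icc (-L) L ∩ Ioi R) (9 * B + 2 * η) h := by
    obtain ⟨ι, s, J, w, a1, a2, a3⟩ := hs2
    refine ⟨ι, s, J, w, a1, a2, fun x hx => ?_⟩
    have h5 : R < x := hx.2
    rw [hh]
    simp only []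
    rw [if_neg (by linarith), a3 x hx]
  refine ⟨h, ?_, fun x hx => ?_⟩
  · rw [hun]
    exact (hst1.union hst2 hd).mono (by linarith)
  · rw [hun] at hx
    rw [hh]
    simp only []
    rcases hx with hx | hx
    · have h5 : x < -R := hx.2
      rw [if_pos (by linarith)]
      exact he1 x hx
    · have h5 : R < x := hx.2
      rw [if_neg (by linarith)]
      exact he2 x hx

end Pool.Agent.Helper57.OP
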